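import Pool.Agent.H90.RG.Targets

/-!
# DUH: the Hessian with a dummy variable
-/

set_option autoImplicit false

namespace Pool.Agent.H7.REG

open MeasureTheory Metric Set Filter Topology Pool.Agent.H87.SN Pool.Agent.H90.RG
open scoped ContDiff RealInnerProductSpace ENNReal

noncomputable section

/-- a smooth function with integral one -/
private theorem exists_chi : ∃ (χ : ℝ → ℝ) (C : ℝ), ContDiff ℝ ∞ χ ∧ (∀ t, 0 ≤ χ t) ∧
    (∀ t, χ t ≤ C) ∧ (∀ t, χ t ≠ 0 → |t| ≤ 1 / 2) ∧ Integrable χ ∧ ∫ t, χ t = 1 := by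
  let b : ContDiffBump (0 : ℝ) := ⟨1 / 4, 1 / 2, by norm_num, by norm_num⟩
  refine ⟨b.normed volume, 1 / (volume.real (closedBall (0 : ℝ) b.rIn)), b.contDiff_normed,
    fun t => b.nonneg_normed t, fun t => b.normed_le_div_measure_closedBall_rIn volume t, ?_, b.integrable_normed,
    b.integral_normed⟩
  intro t ht
  have h1 : t ∈ Function.support (b.normed volume) := ht
  rw [b.support_normed_eq, mem_ball, dist_zero_right, Real.norm_eq_abs] at h1
  exact h1.le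

private theorem sum_sq {n : ℕ} {f : Fin n → ℝ} (h : ∀ i, 0 ≤ f i) :
    ∑ i, f i ^ 2 ≤ (∑ i, f i) ^ 2 := by
  have h1 : ∑ i, f i ^ 2 ≤ ∑ i, f i * ∑ j, f j := by
    refine Finset.sum_le_sum fun i _ => ?_
    rw [sq]
    exact mul_le_mul_of_nonneg_left
      (Finset.single_le_sum (f := f) (fun j _ => h j) (Finset.mem_univ i)) (h i)
  rwa [← Finset.sum_mul, ← sq] at h1

section ext

variable {n : ℕ}

private theorem nrm (hA : T_CNA) (x : E (n + 1)) : ‖x‖ ^ 2 = (x 0) ^ 2 + ‖tl x‖ ^ 2 := by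
  have h1 := ((hA n).2.1 x).1
  have h2 := ((hA n).1 (x 0) (tl x)).1
  rw [h1] at h2
  exact h2

private theorem cont0 : Continuous (fun x : E (n + 1) => x 0) :=
  (EuclideanSpace.proj (0 : Fin (n + 1)) : E (n + 1) →L[ℝ] ℝ).continuous

/-- the extended test function -/
private def ex (χ : ℝ → ℝ) (φ : E n → ℝ) (x : E (n + 1)) : ℝ := χ (x 0) * φ (tl x)

private theorem ex_smooth {χ : ℝ → ℝ} {φ : E n → ℝ} (hχ : ContDiff ℝ ∞ χ) (hφ : ContDiff ℝ ∞ φ) :
    ContDiff ℝ ∞ (ex χ φ) :=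
  (hχ.comp (EuclideanSpace.proj (0 : Fin (n + 1)) : E (n + 1) →L[ℝ] ℝ).contDiff).mul
    (hφ.comp (tl (n := n)).contDiff)

private theorem small (hA : T_CNA) (x : E (n + 1)) (h1 : |x 0| ≤ 1 / 2) (h2 : tl x ∈ ball (0 : E n) (1 / 2)) :
    x ∈ ball (0 : E (n + 1)) 1 := by
  rw [mem_ball, dist_zero_right] at h2 ⊢
  have h3 := nrm hA x
  have h4 : (x 0) ^ 2 ≤ (1 / 2) ^ 2 := by
    rw [← sq_abs]
    exact pow_le_pow_left₀ (abs_nonneg _) h1 2
  have h5 : ‖tl x‖ ^ 2 ≤ (1 / 2) ^ 2 := pow_le_pow_left₀ (norm_nonneg _) h2.le 2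
  have h6 : ‖x‖ ^ 2 < 1 ^ 2 := by
    rw [h3]
    nlinarith
  exact lt_of_pow_lt_pow_left₀ 2 zero_le_one h6

private theorem ex_supp (hA : T_CNA) {χ : ℝ → ℝ} {φ : E n → ℝ} (hχ : ∀ t, χ t ≠ 0 → |t| ≤ 1 / 2)
    (hφ : tsupport φ ⊆ ball 0 (1 / 2)) : tsupport (ex χ φ) ⊆ ball 0 1 := by
  have h1 : tsupport (ex χ φ) ⊆ {x : E (n + 1) | |x 0| ≤ 1 / 2} ∩ (tl ⁻¹' tsupport φ) := by
    refine closure_minimal ?_ ?_
    · intro x hx
      have h2 : χ (x 0) * φ (tl x) ≠ 0 := hx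
      exact ⟨hχ _ (left_ne_zero_of_mul h2), subset_tsupport φ (right_ne_zero_of_mul h2)⟩
    · exact (isClosed_le (cont0.abs) continuous_const).inter
        ((isClosed_tsupport φ).preimage (tl (n := n)).continuous)
  intro x hx
  exact small hA x (h1 hx).1 (hφ (h1 hx).2)

private theorem ex_compact (hA : T_CNA) {χ : ℝ → ℝ} {φ : E n → ℝ} (hχ : ∀ t, χ t ≠ 0 → |t| ≤ 1 / 2)
    (hφ : tsupport φ ⊆ ball 0 (1 / 2)) : HasCompactSupport (ex χ φ) :=
  (isCompact_closedBall (0 : E (n + 1)) 1).of_isClosed_subset (isClosed_tsupport _)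
    ((ex_supp hA hχ hφ).trans ball_subset_closedBall)

private theorem ex_fderiv (hA : T_CNA) {χ : ℝ → ℝ} {φ : E n → ℝ} (hχ : ContDiff ℝ ∞ χ)
    (hφ : ContDiff ℝ ∞ φ) (x : E (n + 1)) (i : Fin n) :
    fderiv ℝ (ex χ φ) x (bv i.succ) = χ (x 0) * fderiv ℝ φ (tl x) (bv i) := by
  have h1 : HasFDerivAt (fun x : E (n + 1) => χ (x 0))
      ((deriv χ (x 0)) • (EuclideanSpace.proj (0 : Fin (n + 1)) : E (n + 1) →L[ℝ] ℝ)) x := by
    have h := (hχ.differentiable (by simp)).differentiableAt (x := x 0) |>.hasDerivAt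
    exact h.comp_hasFDerivAt x
      (EuclideanSpace.proj (0 : Fin (n + 1)) : E (n + 1) →L[ℝ] ℝ).hasFDerivAt
  have h2 : HasFDerivAt (fun x : E (n + 1) => φ (tl x)) ((fderiv ℝ φ (tl x)).comp tl) x :=
    ((hφ.differentiable (by simp)).differentiableAt (x := tl x)).hasFDerivAt.comp x
      (tl (n := n)).hasFDerivAt
  have h3 := (h1.mul h2).fderiv
  have h4 : fderiv ℝ (ex χ φ) x = χ (x 0) • (fderiv ℝ φ (tl x)).comp tl +
      φ (tl x) • ((deriv χ (x 0)) • (EuclideanSpace.proj (0 : Fin (n + 1)) : E (n + 1) →L[ℝ] ℝ)) :=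
    h3
  rw [h4]
  have h5 : (bv i.succ : E (n + 1)) 0 = 0 := by
    unfold bv
    rw [PiLp.single_apply, if_neg (Fin.succ_ne_zero i).symm]
  have h6 : tl (bv i.succ : E (n + 1)) = bv i := ((hA n).2.2.2.2.1 i).1
  have h7 : (EuclideanSpace.proj (0 : Fin (n + 1)) : E (n + 1) →L[ℝ] ℝ) (bv i.succ) = 0 := h5
  simp only [_root_.add_apply, _root_.smul_apply, ContinuousLinearMap.comp_apply, h6, h7,
    smul_eq_mul, mul_zero, add_zero]

/-- the left side -/
private theorem lhs (hA : T_CNA) (hF : T_CNF) (hD : T_DML) {m : ℕ} (G : E n → E n →L[ℝ] E m)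
    (hG : MemLp G 2 (volume.restrict (ball (0 : E n) 2))) {χ : ℝ → ℝ} {φ : E n → ℝ}
    (hχ : ContDiff ℝ ∞ χ) (hχ1 : ∫ t, χ t = 1) (hχs : ∀ t, χ t ≠ 0 → |t| ≤ 1 / 2)
    (hφ : ContDiff ℝ ∞ φ) (hφs : tsupport φ ⊆ ball 0 (1 / 2)) (i j : Fin n) :
    ∫ x, (fderiv ℝ (ex χ φ) x (bv i.succ)) • tg G x (bv j.succ) =
      ∫ y, (fderiv ℝ φ y (bv i)) • G y (bv j) := by
  have hsm := ex_smooth (n := n) hχ hφ
  have hcp := ex_compact hA hχs hφs
  have h1 : MemLp (tg G) 2 (volume.restrict (ball (0 : E (n + 1)) 2)) :=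
    ((hD n m 0 G).2.1 hG).1
  have hfin : IsFiniteMeasure (volume.restrict (ball (0 : E (n + 1)) 2)) :=
    ⟨by rw [Measure.restrict_apply_univ]; exact measure_ball_lt_top⟩
  have h2 : Integrable (fun x => tg G x (bv j.succ)) (volume.restrict (ball (0 : E (n + 1)) 2)) :=
    (h1.integrable one_le_two).apply_continuousLinearMap (bv j.succ)
  have hgc : Continuous (fun x => fderiv ℝ (ex χ φ) x (bv i.succ)) :=
    (hsm.continuous_fderiv (by simp)).clm_apply continuous_const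
  have hgs : HasCompactSupport (fun x => fderiv ℝ (ex χ φ) x (bv i.succ)) :=
    hcp.fderiv_apply ℝ (bv i.succ)
  obtain ⟨B, hB⟩ := hgc.bounded_above_of_compact_support hgs
  have h3 : IntegrableOn (fun x => (fderiv ℝ (ex χ φ) x (bv i.succ)) • tg G x (bv j.succ))
      (ball (0 : E (n + 1)) 2) :=
    h2.bdd_smul B hgc.aestronglyMeasurable (Eventually.of_forall hB)
  have h4 : Integrable (fun x => (fderiv ℝ (ex χ φ) x (bv i.succ)) • tg G x (bv j.succ)) := by
    refine (integrableOn_iff_integrable_of_support_subset ?_).1 h3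
    intro x hx
    by_contra hn
    refine hx ?_
    have h5 : x ∉ tsupport (ex χ φ) := fun h =>
      hn (ball_subset_ball (by norm_num) (ex_supp hA hχs hφs h))
    show (fderiv ℝ (ex χ φ) x (bv i.succ)) • tg G x (bv j.succ) = 0
    rw [fderiv_of_notMem_tsupport ℝ h5, _root_.zero_apply, zero_smul]
  rw [((hF n m).1 _ h4).2.2.1]
  refine integral_congr_ae (Eventually.of_forall fun y => ?_)
  have h6 : ∀ t : ℝ, (fderiv ℝ (ex χ φ) (cn t y) (bv i.succ)) • tg G (cn t y) (bv j.succ) =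
      χ t • ((fderiv ℝ φ y (bv i)) • G y (bv j)) := by
    intro t
    obtain ⟨-, h7, h8, -⟩ := (hA n).1 t y
    rw [ex_fderiv hA hχ hφ]
    show (χ ((cn t y) 0) * fderiv ℝ φ (tl (cn t y)) (bv i)) • G (tl (cn t y)) (tl (bv j.succ)) = _
    rw [h7, h8, ((hA n).2.2.2.2.1 j).1, mul_smul]
  show ∫ t, (fderiv ℝ (ex χ φ) (cn t y) (bv i.succ)) • tg G (cn t y) (bv j.succ) =
    (fderiv ℝ φ y (bv i)) • G y (bv j)
  simp only [h6]
  rw [integral_smul_const, hχ1, one_smul]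

/-- the weighted part of the Hessian -/
private def fh {m : ℕ} (χ : ℝ → ℝ) (H : E (n + 1) → E m) (x : E (n + 1)) : E m :=
  χ (x 0) • (ball (0 : E (n + 1)) 1).indicator H x

private theorem fh_int {m : ℕ} {χ : ℝ → ℝ} {C : ℝ} (hχ : ContDiff ℝ ∞ χ) (h0 : ∀ t, 0 ≤ χ t)
    (hC : ∀ t, χ t ≤ C) {H : E (n + 1) → E m} (hH : IntegrableOn H (ball 0 1)) :
    Integrable (fh χ H) := by
  have h1 : Integrable ((ball (0 : E (n + 1)) 1).indicator H) :=
    hH.integrable_indicator measurableSet_ball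
  refine h1.bdd_smul (φ := fun x : E (n + 1) => χ (x 0)) C
    (hχ.continuous.comp cont0).aestronglyMeasurable (Eventually.of_forall fun x => ?_)
  rw [Real.norm_eq_abs, abs_of_nonneg (h0 _)]
  exact hC _

private theorem rhs (hA : T_CNA) (hF : T_CNF) {m : ℕ} {χ : ℝ → ℝ} {C : ℝ} {φ : E n → ℝ}
    (hχ : ContDiff ℝ ∞ χ) (h0 : ∀ t, 0 ≤ χ t) (hC : ∀ t, χ t ≤ C)
    (hχs : ∀ t, χ t ≠ 0 → |t| ≤ 1 / 2)
    (hφ : ContDiff ℝ ∞ φ) (hφc : HasCompactSupport φ) (hφs : tsupport φ ⊆ ball 0 (1 / 2))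
    {H : E (n + 1) → E m} (hH : IntegrableOn H (ball 0 1)) :
    ∫ x, (ex χ φ x) • H x = ∫ y, φ y • ∫ t, fh χ H (cn t y) := by
  obtain ⟨B, hB⟩ := hφ.continuous.bounded_above_of_compact_support hφc
  have h1 : Integrable (fun x : E (n + 1) => φ (tl x) • fh χ H x) :=
    (fh_int hχ h0 hC hH).bdd_smul (φ := fun x : E (n + 1) => φ (tl x)) B
      (hφ.continuous.comp (tl (n := n)).continuous).aestronglyMeasurable
      (Eventually.of_forall fun x => hB _)
  have h2 : ∫ x, (ex χ φ x) • H x = ∫ x : E (n + 1), φ (tl x) • fh χ H x := by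
    refine integral_congr_ae (Eventually.of_forall fun x => ?_)
    show (ex χ φ x) • H x = φ (tl x) • (χ (x 0) • (ball (0 : E (n + 1)) 1).indicator H x)
    by_cases hx : x ∈ ball (0 : E (n + 1)) 1
    · rw [indicator_of_mem hx, smul_smul, mul_comm]
      rfl
    · rw [indicator_of_notMem hx, smul_zero, smul_zero]
      have h3 : x ∉ tsupport (ex χ φ) := fun h => hx (ex_supp hA hχs hφs h)
      rw [image_eq_zero_of_notMem_tsupport h3, zero_smul]
  rw [h2, ((hF n m).1 _ h1).2.2.1]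
  refine integral_congr_ae (Eventually.of_forall fun y => ?_)
  show ∫ t, φ (tl (cn t y)) • fh χ H (cn t y) = φ y • ∫ t, fh χ H (cn t y)
  rw [← integral_smul]
  refine integral_congr_ae (Eventually.of_forall fun t => ?_)
  show φ (tl (cn t y)) • fh χ H (cn t y) = φ y • fh χ H (cn t y)
  rw [((hA n).1 t y).2.1]

/-- the norm of one part -/
private theorem part {m : ℕ} {χ : ℝ → ℝ} {C δ : ℝ} (h0 : ∀ t, 0 ≤ χ t)
    (hC : ∀ t, χ t ≤ C) {H : Fin (n + 1) → Fin (n + 1) → E (n + 1) → E m}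
    (hH : ∀ i j, IntegrableOn (H i j) (ball 0 1)) (hδ : 0 ≤ δ)
    (hn : ∫⁻ x in ball 0 1, ENNReal.ofReal (Real.sqrt (∑ i, ∑ j, ‖H i j x‖ ^ 2)) ≤ ENNReal.ofReal δ)
    (i j : Fin (n + 1)) (hf : Integrable (fh χ (H i j))) :
    ∫ x, ‖fh χ (H i j) x‖ ≤ C * δ := by
  have hC0 : 0 ≤ C := (h0 0).trans (hC 0)
  have h1 : ∫ x in ball 0 1, ‖H i j x‖ ≤ δ := by
    have h2 : ENNReal.ofReal (∫ x in ball 0 1, ‖H i j x‖) ≤ ENNReal.ofReal δ := by
      rw [ofReal_integral_eq_lintegral_ofReal (hH i j).norm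
        (Eventually.of_forall fun x => norm_nonneg _)]
      refine le_trans (lintegral_mono fun x => ENNReal.ofReal_le_ofReal ?_) hn
      refine Real.le_sqrt_of_sq_le ?_
      have h3 : ‖H i j x‖ ^ 2 ≤ ∑ j', ‖H i j' x‖ ^ 2 :=
        Finset.single_le_sum (f := fun j' => ‖H i j' x‖ ^ 2) (fun _ _ => by positivity)
          (Finset.mem_univ j)
      have h4 : ∑ j', ‖H i j' x‖ ^ 2 ≤ ∑ i', ∑ j', ‖H i' j' x‖ ^ 2 :=
        Finset.single_le_sum (f := fun i' => ∑ j', ‖H i' j' x‖ ^ 2) (fun _ _ => by positivity)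
          (Finset.mem_univ i)
      exact h3.trans h4
    exact (ENNReal.ofReal_le_ofReal_iff hδ).1 h2
  have h6 : IntegrableOn (fun x => C * ‖H i j x‖) (ball (0 : E (n + 1)) 1) :=
    (hH i j).norm.const_mul C
  have h5 : ∫ x, ‖fh χ (H i j) x‖ ≤ ∫ x, (ball (0 : E (n + 1)) 1).indicator
      (fun x => C * ‖H i j x‖) x := by
    refine integral_mono hf.norm (h6.integrable_indicator measurableSet_ball) fun x => ?_
    show ‖χ (x 0) • (ball (0 : E (n + 1)) 1).indicator (H i j) x‖ ≤ _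
    by_cases hx : x ∈ ball (0 : E (n + 1)) 1
    · rw [indicator_of_mem hx, indicator_of_mem hx, norm_smul, Real.norm_eq_abs,
        abs_of_nonneg (h0 _)]
      exact mul_le_mul_of_nonneg_right (hC _) (norm_nonneg _)
    · rw [indicator_of_notMem hx, indicator_of_notMem hx, smul_zero, norm_zero]
  refine h5.trans ?_
  rw [integral_indicator measurableSet_ball, integral_const_mul]
  exact mul_le_mul_of_nonneg_left h1 hC0

end ext

theorem pf_DUH (hA : T_CNA) (hF : T_CNF) (hD : T_DML) : T_DUH := by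
  intro n
  obtain ⟨χ, C, hχs, hχ0, hχC, hχsupp, hχi, hχ1⟩ := exists_chi
  have hC : 0 ≤ C := (hχ0 0).trans (hχC 0)
  refine ⟨(n : ℝ) * (n * C), by positivity, ?_⟩
  rintro m G δ hG hδ ⟨H', hint, hid, hnorm⟩
  have hfi : ∀ i j, Integrable (fh χ (H' i j)) := fun i j => fh_int hχs hχ0 hχC (hint i j)
  refine ⟨fun i j y => ∫ t, fh χ (H' i.succ j.succ) (cn t y), ?_, ?_, ?_⟩
  · intro i j
    exact ((hF n m).1 _ (hfi i.succ j.succ)).1.integrableOn
  · intro i j φ hφ hφc hφs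
    rw [← lhs hA hF hD G hG hχs hχ1 hχsupp hφ hφs i j,
      hid i.succ j.succ (ex χ φ) (ex_smooth hχs hφ) (ex_compact hA hχsupp hφs)
        (ex_supp hA hχsupp hφs), rhs hA hF hχs hχ0 hχC hχsupp hφ hφc hφs (hint i.succ j.succ)]
  · have hN : ∀ i j : Fin n, Integrable (fun y : E n => ∫ t, ‖fh χ (H' i.succ j.succ) (cn t y)‖) ∧
        ∫ x, ‖fh χ (H' i.succ j.succ) x‖ =
          ∫ y : E n, ∫ t, ‖fh χ (H' i.succ j.succ) (cn t y)‖ := fun i j =>
      ⟨((hF n m).2.1 _ (hfi i.succ j.succ).norm).1, ((hF n m).2.1 _ (hfi i.succ j.succ).norm).2.2.1⟩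
    have hNI : Integrable (fun y : E n => ∑ i : Fin n, ∑ j : Fin n,
        ∫ t, ‖fh χ (H' i.succ j.succ) (cn t y)‖) :=
      integrable_finsetSum _ fun i _ => integrable_finsetSum _ fun j _ => (hN i j).1
    have h1 : ∀ y : E n, Real.sqrt (∑ i : Fin n, ∑ j : Fin n,
        ‖∫ t, fh χ (H' i.succ j.succ) (cn t y)‖ ^ 2) ≤
        ∑ i : Fin n, ∑ j : Fin n, ∫ t, ‖fh χ (H' i.succ j.succ) (cn t y)‖ := by
      intro y
      have h2 : ∀ i j : Fin n, ‖∫ t, fh χ (H' i.succ j.succ) (cn t y)‖ ≤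
          ∫ t, ‖fh χ (H' i.succ j.succ) (cn t y)‖ := fun i j => norm_integral_le_integral_norm _
      refine Real.sqrt_le_iff.2 ⟨Finset.sum_nonneg fun i _ => Finset.sum_nonneg fun j _ =>
        (norm_nonneg _).trans (h2 i j), ?_⟩
      refine le_trans (Finset.sum_le_sum fun i _ => ?_)
        (sum_sq fun i => Finset.sum_nonneg fun j _ =>
          (norm_nonneg _).trans (h2 i j))
      refine le_trans (Finset.sum_le_sum fun j _ => ?_)
        (sum_sq fun j => (norm_nonneg _).trans (h2 i j))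
      exact pow_le_pow_left₀ (norm_nonneg _) (h2 i j) 2
    calc ∫⁻ y in ball (0 : E n) (1 / 2), ENNReal.ofReal (Real.sqrt (∑ i : Fin n, ∑ j : Fin n,
          ‖∫ t, fh χ (H' i.succ j.succ) (cn t y)‖ ^ 2))
        ≤ ∫⁻ y, ENNReal.ofReal (∑ i : Fin n, ∑ j : Fin n,
            ∫ t, ‖fh χ (H' i.succ j.succ) (cn t y)‖) := by
          refine le_trans (lintegral_mono fun y => ENNReal.ofReal_le_ofReal (h1 y)) ?_
          exact setLIntegral_le_lintegral _ _
      _ = ENNReal.ofReal (∫ y : E n, ∑ i : Fin n, ∑ j : Fin n,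
            ∫ t, ‖fh χ (H' i.succ j.succ) (cn t y)‖) := by
          rw [ofReal_integral_eq_lintegral_ofReal hNI]
          exact Eventually.of_forall fun y => Finset.sum_nonneg fun i _ =>
            Finset.sum_nonneg fun j _ => integral_nonneg fun t => norm_nonneg _
      _ ≤ ENNReal.ofReal (n * (n * C) * δ) := by
          refine ENNReal.ofReal_le_ofReal ?_
          rw [integral_finsetSum _ fun i _ => integrable_finsetSum _ fun j _ => (hN i j).1]
          have h3 : ∀ i : Fin n, ∫ y : E n, ∑ j : Fin n,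
              ∫ t, ‖fh χ (H' i.succ j.succ) (cn t y)‖ ≤ n * (C * δ) := by
            intro i
            rw [integral_finsetSum _ fun j _ => (hN i j).1]
            refine le_trans (Finset.sum_le_card_nsmul _ _ (C * δ) fun j _ => ?_) ?_
            · rw [← (hN i j).2]
              exact part hχ0 hχC hint hδ hnorm i.succ j.succ (hfi i.succ j.succ)
            · rw [Finset.card_univ, Fintype.card_fin, nsmul_eq_mul]
          refine le_trans (Finset.sum_le_card_nsmul _ _ (n * (C * δ)) fun i _ => h3 i) ?_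
          rw [Finset.card_univ, Fintype.card_fin, nsmul_eq_mul]
          exact le_of_eq (by ring)

end

end Pool.Agent.H7.REG
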